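import Pool.Agent.H41.Beur.T3
import Pool.Agent.H41.Beur.T4
import Pool.Agent.H41.Beur.G
import Pool.Graph.R_seed8.Y282.RB.K3

/-!
# The exact norms of `T ^ 3` and `T ^ 4` on the functions of one angular frequency

For `n = 3`, `p ≥ 6` and for `n = 4`, `p ≥ 10` the norm of `T ^ n` in `L^p` on the functions
`f (r e^{iθ}) = e^{i k θ} φ(r)` of one angular frequency, all integers `k` admitted, is exactly the
constant `(1/q)_n / (1/p)_n` of the question.

Outline (files `Pool/Agent/H41/Beur/*`).  The extremal frequency is `k = 2 n`, where `T ^ n` is a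
chain of `n` first order operators and the inequality follows from a pointwise inequality `Star n p`
for quadratic forms in `n + 1` variables `γ_0, ..., γ_n` (starting files, where it is known for
`p ≥ 1000 n ^ 2`).  Here two multipliers are used, `ν` for the constraint `Λ = 1` and `m` for the
last variable, the latter through Young's inequality for `|γ_n| ^ p`: the minimum of
`T + ν Λ + m γ_n ^ 2` over the last `n` variables is computed exactly by backward elimination, with
`m` a fixed function of `ν`, and the resulting rational function is compared with the power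
`s ^ (2/p)` by the sign of an explicit polynomial in `(p, ν)`, separately for `s < 1` and `s > 1`.
The remaining range of large `s` is excluded by a Cauchy-Schwarz bound for the first variable.
-/

set_option autoImplicit false

open MeasureTheory

namespace Pool.Agent.Results.MP_dd244f_an.CubeAndFourthPower

/-- The `n`-th power of the Beurling transform: the Fourier multiplier with symbol
`(conj ξ / ξ) ^ n`, in the literal form of the frozen statement. -/
noncomputable def T (n : ℕ) (f : ℂ → ℂ) (z : ℂ) : ℂ :=
  ∫ ξ : ℂ,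
    Complex.exp (2 * (Real.pi : ℂ) * Complex.I * (((z.re * ξ.re + z.im * ξ.im : ℝ)) : ℂ)) *
      ((starRingEnd ℂ ξ / ξ) ^ n *
        ∫ x : ℂ, Complex.exp (-(2 * (Real.pi : ℂ) * Complex.I *
          (((x.re * ξ.re + x.im * ξ.im : ℝ)) : ℂ))) * f x)

/-- The constant `(1/q)_n / (1/p)_n` of the question. -/
noncomputable def K (n : ℕ) (p : ℝ) : ℝ :=
  (ascPochhammer ℝ n).eval (1 - 1 / p) / (ascPochhammer ℝ n).eval (1 / p)

/-- The set of admissible constants for `T ^ n` in `L^p` on the Schwartz functions of one angular
frequency `k`, where `k` may be any integer. -/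
def Admissible (n : ℕ) (p : ℝ) : Set ℝ :=
  {C | 0 ≤ C ∧ ∀ (k : ℤ) (f : SchwartzMap ℂ ℂ),
    (∀ a z : ℂ, ‖a‖ = 1 → f (a * z) = a ^ k * f z) →
    eLpNorm (T n f) (ENNReal.ofReal p) (volume : Measure ℂ)
      ≤ ENNReal.ofReal C * eLpNorm f (ENNReal.ofReal p) (volume : Measure ℂ)}

/-- For `n = 3, 4` and every real `p ≥ 4 n - 6` (that is `p ≥ 6` for `n = 3` and `p ≥ 10` for
`n = 4`) the least admissible constant for `T ^ n` in `L^p` on the Schwartz functions of one angular
frequency (`f (r e^{iθ}) = e^{i k θ} φ(r)`, `k` any integer) is the constant `(1/q)_n / (1/p)_n` of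
the question. -/
theorem result (n : ℕ) (p : ℝ) (hn : 3 ≤ n) (hn4 : n ≤ 4) (hp : 4 * (n : ℝ) - 6 ≤ p) :
    IsLeast (Admissible n p) (K n p) := by
  have hn' : (3 : ℝ) ≤ (n : ℝ) := by exact_mod_cast hn
  have hp2 : 2 ≤ p := by linarith
  have hT : ∀ n f, T n f = Y282.RB.Tn n f := fun n f => rfl
  have hK : K n p = Y282.RB.Cn p n := (Y282.RB.K3.main n p (by linarith)).symm
  have hpos : 0 < Y282.RB.Cn p n := H41.Beur.G.cpos n p hp2
  have hS : Y282.RB.Star n p := by
    interval_cases n
    · exact H41.Beur.T3.main p (by norm_num at hp; linarith)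
    · exact H41.Beur.T4.main p (by norm_num at hp; linarith)
  refine ⟨⟨hK ▸ hpos.le, fun k f hf => ?_⟩, ?_⟩
  · rw [hK]
    exact H41.Beur.G.upper n p (by omega) hp2 hS k f hf
  · rintro C ⟨hC0, hCf⟩
    rw [hK]
    exact H41.Beur.G.lower n p C (by omega) hp2 hC0 hCf

end Pool.Agent.Results.MP_dd244f_an.CubeAndFourthPower
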