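import Pool.Agent.H41.Beur.P3
import Pool.Agent.H41.Beur.G
import Pool.Graph.R_seed8.Y282.RB.K3

/-!
# The exact norm on the functions of one angular frequency, for `p ≥ 4 n ^ 2`

For every `n ≥ 2` and every `p ≥ 4 n ^ 2` the norm of `T ^ n` in `L^p` on the functions
`f (r e^{iθ}) = e^{i k θ} φ(r)` of one angular frequency, all integers `k` admitted, is exactly the
constant `(1/q)_n / (1/p)_n` of the question.

The extremal frequency is `k = 2 n`; there the inequality follows from a pointwise inequality
`Star n p` between quadratic forms in `n + 1` variables (starting files, where it is proved for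
`p ≥ 1000 n ^ 2`).  Here it is proved for `n ≥ 3`, `p ≥ 4 n ^ 2` (files
`Pool/Agent/H41/Beur/P1`, `P2`, `P3`).  For each `J ≤ n` the first variable is written exactly as the
mean of `y_0, ..., y_{J-1}` plus a combination of the differences, whose weighted square sum is at
most `(2 J ^ 2 - 1) / p ^ 2`; then `J` is chosen according to the size of the first variable, by means
of the bound `exp (2 λ_J) ≤ (4 n ^ 2 - 1) / (4 J ^ 2 - 1)` for the trapezoidal sums
`λ_J = (1/2) ∑_{J ≤ j < n} (1/j + 1/(j+1))`.  Small values of the first variable are treated by the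
same identity with `J = n`, and large values are excluded by an alternating sum.
-/

set_option autoImplicit false

open MeasureTheory

namespace Pool.Agent.Results.MP_dd244f_an.EveryFrequencyFourNSq

/-- The `n`-th power of the Beurling transform: the Fourier multiplier with symbol
`(conj ξ / ξ) ^ n`, in the literal form of the frozen statement. -/
noncomputable def T (n : ℕ) (f : ℂ → ℂ) (z : ℂ) : ℂ :=
  ∫ ξ : ℂ,
    Complex.exp (2 * (Real.pi : ℂ) * Complex.I * (((z.re * ξ.re + z.im * ξ.im : ℝ)) : ℂ)) *
      ((starRingEnd ℂ ξ / ξ) ^ n *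
        ∫ x : ℂ, Complex.exp (-(2 * (Real.pi : ℂ) * Complex.I *
          (((x.re * ξ.re + x.im * ξ.im : ℝ)) : ℂ))) * f x)

/-- The constant `(1/q)_n / (1/p)_n` of the question. -/
noncomputable def K (n : ℕ) (p : ℝ) : ℝ :=
  (ascPochhammer ℝ n).eval (1 - 1 / p) / (ascPochhammer ℝ n).eval (1 / p)

/-- The set of admissible constants for `T ^ n` in `L^p` on the Schwartz functions of one angular
frequency `k`, where `k` may be any integer. -/
def Admissible (n : ℕ) (p : ℝ) : Set ℝ :=
  {C | 0 ≤ C ∧ ∀ (k : ℤ) (f : SchwartzMap ℂ ℂ),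
    (∀ a z : ℂ, ‖a‖ = 1 → f (a * z) = a ^ k * f z) →
    eLpNorm (T n f) (ENNReal.ofReal p) (volume : Measure ℂ)
      ≤ ENNReal.ofReal C * eLpNorm f (ENNReal.ofReal p) (volume : Measure ℂ)}

/-- For every `n ≥ 2` and every real `p ≥ 4 n ^ 2` the least admissible constant for `T ^ n` in
`L^p` on the Schwartz functions of one angular frequency (`f (r e^{iθ}) = e^{i k θ} φ(r)`, `k` any
integer) is the constant `(1/q)_n / (1/p)_n` of the question. -/
theorem result (n : ℕ) (p : ℝ) (hn : 2 ≤ n) (hp : 4 * (n : ℝ) ^ 2 ≤ p) :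
    IsLeast (Admissible n p) (K n p) := by
  have hn' : (2 : ℝ) ≤ (n : ℝ) := by exact_mod_cast hn
  have hp2 : 2 ≤ p := by nlinarith
  have hT : ∀ n f, T n f = Y282.RB.Tn n f := fun n f => rfl
  have hK : K n p = Y282.RB.Cn p n := (Y282.RB.K3.main n p (by linarith)).symm
  have hpos : 0 < Y282.RB.Cn p n := H41.Beur.G.cpos n p hp2
  have hS : Y282.RB.Star n p := by
    rcases Nat.lt_or_ge n 3 with h | h
    · have h2 : n = 2 := by omega
      subst h2
      exact Y282.RB.Fin.star2 p hp2
    · exact H41.Beur.P.star n h p hp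
  refine ⟨⟨hK ▸ hpos.le, fun k f hf => ?_⟩, ?_⟩
  · rw [hK]
    exact H41.Beur.G.upper n p (by omega) hp2 hS k f hf
  · rintro C ⟨hC0, hCf⟩
    rw [hK]
    exact H41.Beur.G.lower n p C (by omega) hp2 hC0 hCf

end Pool.Agent.Results.MP_dd244f_an.EveryFrequencyFourNSq
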